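import Pool.Agent.Helper92.PW.St

/-!
Project PW, module PLC: a cluster in a plane through the origin.
-/

set_option autoImplicit false

open Finset

namespace Pool.Agent.Helper8.PW

open Pool.Agent.Helper92.PW

/-- the bound for the integer `dot M q` -/
theorem dot_bound (h1 : StSGN) (h2 : StLOC) (k : ℤ) (B β lam : ℝ) (hP : Par k B β lam) (p q : Pt)
    (hp : Gen k B β p) (hq : Gen k B β q)
    (hd : (xi q - xi p) ^ 2 ≤ 48 * |(k : ℝ)| / (β * B ^ 3)) :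
    |((dot (p.1 ^ 2, p.2.1 ^ 2, p.2.2 ^ 2) q : ℤ) : ℝ)| ≤ 258 * |(k : ℝ)| / β ^ 7 := by
  obtain ⟨⟨hx1, hx2, hy1, hy2⟩, he, heb⟩ := h1 k B β lam hP p hp
  obtain ⟨⟨hx1', hx2', hy1', hy2'⟩, he', heb'⟩ := h1 k B β lam hP q hq
  have hB1 := hP.B1
  have hB0 : 0 < B := by linarith
  have hb0 := hP.b0
  have hb1 := hP.b1
  have hk1 := hP.k1
  have hz : (p.2.2 : ℝ) ≠ 0 := by
    intro h
    have := hp.z_gt
    rw [h, abs_zero] at this
    linarith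
  have hz' : (q.2.2 : ℝ) ≠ 0 := by
    intro h
    have := hq.z_gt
    rw [h, abs_zero] at this
    linarith
  have hB3 : 0 < B ^ 3 := by positivity
  have hkB : 16 * |(k : ℝ)| / B ^ 3 ≤ 1 := by
    rw [div_le_one hB3]
    have h3 := hP.kB
    have h4 := hP.lb
    have h5 : β ^ 9 ≤ 1 := pow_le_one₀ hb0.le hb1
    have h6 : lam ≤ 1 := by linarith
    have h7 : B * lam ≤ B := mul_le_of_le_one_right hB0.le h6
    have h8 : B ≤ B ^ 3 := le_self_pow₀ hB1 (by norm_num)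
    linarith
  -- abbreviations
  have hx := hx1
  generalize hξ : xi p = ξ at hx1 hx2 he hd
  generalize hη : et p = η at hy1 hy2 he
  generalize hξ' : xi q = ξ' at hx1' hx2' he' hd
  generalize hη' : et q = η' at hy1' hy2' he'
  have ee : |(k : ℝ) / (q.2.2 : ℝ) ^ 3 - (k : ℝ) / (p.2.2 : ℝ) ^ 3| ≤ 16 * |(k : ℝ)| / B ^ 3 := by
    calc |(k : ℝ) / (q.2.2 : ℝ) ^ 3 - (k : ℝ) / (p.2.2 : ℝ) ^ 3|
        ≤ |(k : ℝ) / (q.2.2 : ℝ) ^ 3| + |(k : ℝ) / (p.2.2 : ℝ) ^ 3| := abs_sub _ _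
      _ ≤ 8 * |(k : ℝ)| / B ^ 3 + 8 * |(k : ℝ)| / B ^ 3 := add_le_add heb' heb
      _ = 16 * |(k : ℝ)| / B ^ 3 := by ring
  have hloc := (h2 β ξ η (ξ' - ξ) (η' - η) ((k : ℝ) / (q.2.2 : ℝ) ^ 3 - (k : ℝ) / (p.2.2 : ℝ) ^ 3)
    hb0 hb1 hx1 hx2 hy1 hy2 (by linarith) (by linarith) (by linarith) (by linarith)
    (ee.trans hkB) (by rw [← he', ← he]; ring)).2
  -- bound for `v`
  have hv : |η' - η + ξ ^ 2 / η ^ 2 * (ξ' - ξ)| ≤ 256 * |(k : ℝ)| / (β ^ 7 * B ^ 3) := by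
    refine hloc.trans ?_
    have h3 : 16 * |(k : ℝ)| / B ^ 3 ≤ 16 * |(k : ℝ)| / (β * B ^ 3) := by
      apply div_le_div_of_nonneg_left (by positivity) (by positivity)
      exact mul_le_of_le_one_left hB3.le hb1
    have h4 : (ξ' - ξ) ^ 2 + |(k : ℝ) / (q.2.2 : ℝ) ^ 3 - (k : ℝ) / (p.2.2 : ℝ) ^ 3| ≤
        64 * |(k : ℝ)| / (β * B ^ 3) := by
      calc _ ≤ 48 * |(k : ℝ)| / (β * B ^ 3) + 16 * |(k : ℝ)| / (β * B ^ 3) :=
            add_le_add hd (ee.trans h3)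
        _ = 64 * |(k : ℝ)| / (β * B ^ 3) := by ring
    calc 4 * ((ξ' - ξ) ^ 2 + |(k : ℝ) / (q.2.2 : ℝ) ^ 3 - (k : ℝ) / (p.2.2 : ℝ) ^ 3|) / β ^ 6
        ≤ 4 * (64 * |(k : ℝ)| / (β * B ^ 3)) / β ^ 6 := by gcongr
      _ = 256 * |(k : ℝ)| / (β ^ 7 * B ^ 3) := by
          field_simp
          ring
  have hη0 : η ≠ 0 := by
    intro h
    rw [h] at hy2
    linarith
  -- the identity
  have hxp : (p.1 : ℝ) = ξ * p.2.2 := by rw [← hξ]; unfold xi; field_simp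
  have hyp : (p.2.1 : ℝ) = η * p.2.2 := by rw [← hη]; unfold et; field_simp
  have hxq : (q.1 : ℝ) = ξ' * q.2.2 := by rw [← hξ']; unfold xi; field_simp
  have hyq : (q.2.1 : ℝ) = η' * q.2.2 := by rw [← hη']; unfold et; field_simp
  have hA : ((dot (p.1 ^ 2, p.2.1 ^ 2, p.2.2 ^ 2) q : ℤ) : ℝ) =
      k * ((q.2.2 : ℝ) / p.2.2) + (p.2.2 : ℝ) ^ 2 * q.2.2 * (η ^ 2 *
        (η' - η + ξ ^ 2 / η ^ 2 * (ξ' - ξ))) := by
    have h3 : η ^ 2 * (η' - η + ξ ^ 2 / η ^ 2 * (ξ' - ξ)) = η ^ 2 * (η' - η) + ξ ^ 2 * (ξ' - ξ) := by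
      field_simp
    have h4 : (k : ℝ) = (ξ ^ 3 + η ^ 3 + 1) * (p.2.2 : ℝ) ^ 3 := by
      rw [he]; field_simp
    have h5 : (k : ℝ) * ((q.2.2 : ℝ) / p.2.2) = (ξ ^ 3 + η ^ 3 + 1) * (p.2.2 : ℝ) ^ 2 * q.2.2 := by
      rw [h4]; field_simp
    rw [h3, h5]
    unfold dot
    push_cast
    rw [hxp, hyp, hxq, hyq]
    ring
  rw [hA]
  have hzq := hq.z_le
  have hzp := hp.z_le
  have hzp2 := hp.z_gt
  have hr : |(q.2.2 : ℝ) / p.2.2| ≤ 2 := by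
    rw [abs_div, div_le_iff₀ (by positivity)]
    linarith
  have hη1 : η ^ 2 ≤ 1 := (sq_le_one_iff_abs_le_one η).mpr (abs_le.mpr ⟨hy1, by linarith⟩)
  have t1 : |(k : ℝ) * ((q.2.2 : ℝ) / p.2.2)| ≤ 2 * |(k : ℝ)| := by
    rw [abs_mul, mul_comm (2 : ℝ)]
    exact mul_le_mul_of_nonneg_left hr (abs_nonneg _)
  have t2 : |(p.2.2 : ℝ) ^ 2 * q.2.2 * (η ^ 2 * (η' - η + ξ ^ 2 / η ^ 2 * (ξ' - ξ)))| ≤
      256 * |(k : ℝ)| / β ^ 7 := by
    rw [abs_mul, abs_mul, abs_mul, abs_pow, abs_pow]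
    have e1 : |(p.2.2 : ℝ)| ^ 2 * |(q.2.2 : ℝ)| ≤ B ^ 3 := by
      calc |(p.2.2 : ℝ)| ^ 2 * |(q.2.2 : ℝ)| ≤ B ^ 2 * B := by gcongr
        _ = B ^ 3 := by ring
    have e2 : |η| ^ 2 * |η' - η + ξ ^ 2 / η ^ 2 * (ξ' - ξ)| ≤ 256 * |(k : ℝ)| / (β ^ 7 * B ^ 3) := by
      rw [sq_abs]
      calc η ^ 2 * |η' - η + ξ ^ 2 / η ^ 2 * (ξ' - ξ)| ≤ 1 * |η' - η + ξ ^ 2 / η ^ 2 * (ξ' - ξ)| := by
            gcongr
        _ ≤ _ := by rw [one_mul]; exact hv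
    calc |(p.2.2 : ℝ)| ^ 2 * |(q.2.2 : ℝ)| * (|η| ^ 2 * |η' - η + ξ ^ 2 / η ^ 2 * (ξ' - ξ)|)
        ≤ B ^ 3 * (256 * |(k : ℝ)| / (β ^ 7 * B ^ 3)) := by gcongr
      _ = 256 * |(k : ℝ)| / β ^ 7 := by field_simp
  have t3 : 2 * |(k : ℝ)| ≤ 2 * |(k : ℝ)| / β ^ 7 := by
    rw [le_div_iff₀ (by positivity)]
    exact mul_le_of_le_one_right (by positivity) (pow_le_one₀ hb0.le hb1)
  calc _ ≤ |(k : ℝ) * ((q.2.2 : ℝ) / p.2.2)| +
        |(p.2.2 : ℝ) ^ 2 * q.2.2 * (η ^ 2 * (η' - η + ξ ^ 2 / η ^ 2 * (ξ' - ξ)))| := abs_add_le _ _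
    _ ≤ 2 * |(k : ℝ)| / β ^ 7 + 256 * |(k : ℝ)| / β ^ 7 := add_le_add (t1.trans t3) t2
    _ = 258 * |(k : ℝ)| / β ^ 7 := by ring

theorem crs_ne (k : ℤ) (hk : NC k) (N : Pt) (hN : N ≠ 0) (p : Pt) (hp : Fm p = k)
    (hd : dot N p = 0) : crs N (p.1 ^ 2, p.2.1 ^ 2, p.2.2 ^ 2) ≠ 0 := by
  intro h
  obtain ⟨a, b, c⟩ := N
  obtain ⟨x, y, z⟩ := p
  unfold crs at h
  unfold dot at hd
  unfold Fm at hp
  simp only [Prod.mk_eq_zero] at h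
  simp only at hd hp
  obtain ⟨h1, h2, h3⟩ := h
  have hk0 : k = 0 := by
    by_cases ha : a = 0
    · by_cases hb : b = 0
      · have hc : c ≠ 0 := by
          intro hc
          apply hN
          rw [ha, hb, hc]
          rfl
        have e : c * k = 0 := by
          rw [← hp]
          linear_combination z ^ 2 * hd + x * h2 - y * h1
        rcases mul_eq_zero.mp e with h | h
        · exact absurd h hc
        · exact h
      · have e : b * k = 0 := by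
          rw [← hp]
          linear_combination y ^ 2 * hd - x * h3 + z * h1
        rcases mul_eq_zero.mp e with h | h
        · exact absurd h hb
        · exact h
    · have e : a * k = 0 := by
        rw [← hp]
        linear_combination x ^ 2 * hd + y * h3 - z * h2
      rcases mul_eq_zero.mp e with h | h
      · exact absurd h ha
      · exact h
  exact hk 0 (by rw [hk0]; norm_num)

theorem hPLC (h1 : StSGN) (h2 : StLOC) (h3 : StLN3) : StPLC := by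
  intro k B β lam hP hk N hN p hp hNp S hS
  have hb0 := hP.b0
  have hb1 := hP.b1
  have hk1 := hP.k1
  set M : Pt := (p.1 ^ 2, p.2.1 ^ 2, p.2.2 ^ 2) with hM
  have hcr : crs N M ≠ 0 := crs_ne k hk N hN p hp.sol hNp
  set L : ℝ := 258 * |(k : ℝ)| / β ^ 7 with hL
  have hβ7 : 0 < β ^ 7 := by positivity
  have hkβ : 1 ≤ |(k : ℝ)| / β ^ 7 := by
    rw [le_div_iff₀ hβ7, one_mul]
    exact (pow_le_one₀ hb0.le hb1).trans hk1
  have hL0 : 0 ≤ L := by rw [hL]; positivity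
  have himg : S.image (fun q => dot M q) ⊆ Finset.Icc (-⌊L⌋) ⌊L⌋ := by
    intro A hA
    rw [Finset.mem_image] at hA
    obtain ⟨q, hq, rfl⟩ := hA
    obtain ⟨hq1, _, hq3⟩ := hS q hq
    have hb := dot_bound h1 h2 k B β lam hP p q hp hq1 hq3
    rw [← hM, ← hL, abs_le] at hb
    rw [Finset.mem_Icc]
    constructor
    · have h4 : -dot M q ≤ ⌊L⌋ := Int.le_floor.mpr (by push_cast; linarith [hb.1])
      linarith
    · exact Int.le_floor.mpr hb.2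
  have hcard : S.card ≤ 3 * (S.image (fun q => dot M q)).card := by
    refine Finset.card_le_mul_card_image S 3 ?_
    intro A _
    refine h3 k hk N M A hcr _ ?_
    intro q hq
    rw [Finset.mem_filter] at hq
    exact ⟨(hS q hq.1).1.sol, (hS q hq.1).2.1, hq.2⟩
  have hIcc : (S.image (fun q => dot M q)).card ≤ (Finset.Icc (-⌊L⌋) ⌊L⌋).card :=
    Finset.card_le_card himg
  rw [Int.card_Icc] at hIcc
  have hfl : 0 ≤ ⌊L⌋ := Int.floor_nonneg.mpr hL0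
  have e1 : ((⌊L⌋ + 1 - -⌊L⌋).toNat : ℤ) = 2 * ⌊L⌋ + 1 := by
    rw [Int.toNat_of_nonneg (by linarith)]; ring
  have e2 : (((⌊L⌋ + 1 - -⌊L⌋).toNat : ℕ) : ℝ) ≤ 2 * L + 1 := by
    have h5 : (((⌊L⌋ + 1 - -⌊L⌋).toNat : ℕ) : ℝ) = 2 * (⌊L⌋ : ℝ) + 1 := by exact_mod_cast e1
    rw [h5]
    linarith [Int.floor_le L]
  have e3 : (S.card : ℝ) ≤ 3 * (2 * L + 1) := by
    have h6 : (S.card : ℝ) ≤ 3 * ((S.image (fun q => dot M q)).card : ℝ) := by exact_mod_cast hcard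
    have h7 : ((S.image (fun q => dot M q)).card : ℝ) ≤ (((⌊L⌋ + 1 - -⌊L⌋).toNat : ℕ) : ℝ) := by
      exact_mod_cast hIcc
    linarith
  have e4 : 1551 * |(k : ℝ)| / β ^ 7 = 1551 * (|(k : ℝ)| / β ^ 7) := by ring
  have e5 : L = 258 * (|(k : ℝ)| / β ^ 7) := by rw [hL]; ring
  rw [e4]
  rw [e5] at e3
  linarith

end Pool.Agent.Helper8.PW
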